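import Pool.Agent.Helper3.HY.Bridge
import Pool.Agent.Helper3.PD.Selmer

/-!
# A positive proportion of all odd hyperelliptic Jacobians over `F(t)` has trivial 2-Selmer group

Let `F` be a finite field of odd characteristic and `g ≥ 1`.  Order the curves
`y ^ 2 = f(x) = x ^ (2 g + 1) + c_1 x ^ (2 g) + ... + c_(2 g + 1)`, `c_i ∈ F[t]`, by the least `d` with
`deg c_i ≤ i d` for all `i`.  For a positive proportion of all these curves the Jacobian over `F(t)`
has trivial `2`-Selmer group (so rank `0` and no `2`-torsion in its Tate–Shafarevich group).  For these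
curves it is also proved that the group of the `F(t)`-points of the Jacobian, the group of ideal classes of
`F(t)[x, y] / (y ^ 2 - f(x))`, is divisible by two (and it is finitely generated, hence finite of odd order).
-/

set_option autoImplicit false

namespace Pool.Agent.Results.MP_1d384c_nt.AllHyperelliptic

open Filter Pool.Agent.Helper3.HYR Pool.Agent.Helper3.PD

theorem result (F : Type) [Field F] [Finite F] (h2 : (2 : F) ≠ 0) (g : ℕ) (hg : 1 ≤ g) :
    ∃ c : ℝ, 0 < c ∧ ∀ᶠ d : ℕ in atTop,
      c * ((family F (2 * g + 1) d).ncard : ℝ) ≤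
        ({f ∈ trivialFamily F (2 * g + 1) d | PicTwoDivisible (overRatFunc f)}.ncard : ℝ) := by
  obtain ⟨c, hc, h⟩ := main F h2 g hg
  have h2' : (2 : RatFunc F) ≠ 0 := by
    intro h0
    have h1 : algebraMap F (RatFunc F) 2 = 0 := by rw [map_ofNat]; exact h0
    exact h2 ((map_eq_zero_iff _ (algebraMap F (RatFunc F)).injective).mp h1)
  have e : ∀ d : ℕ, {f ∈ trivialFamily F (2 * g + 1) d | PicTwoDivisible (overRatFunc f)}
      = trivialFamily F (2 * g + 1) d := by
    intro d
    apply Set.Subset.antisymm (fun f hf => hf.1)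
    rintro f ⟨⟨hm, hN, hcf⟩, hsep, hS⟩
    refine ⟨⟨⟨hm, hN, hcf⟩, hsep, hS⟩, ?_⟩
    apply picTwoDivisible_of_trivialSelmer h2' (hm.map _) ?_ hsep hS
    rw [hm.natDegree_map, hN]
    exact ⟨g, rfl⟩
  exact ⟨c, hc, by simpa only [e] using h⟩

end Pool.Agent.Results.MP_1d384c_nt.AllHyperelliptic
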