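import Pool.Agent.Helper1.CV.M_HkT
import Pool.Agent.Helper2.CV.M_Com
import Pool.Agent.Helper2.CV.M_Lvl
import Pool.Agent.Helper6.CV.M_B3b
import Pool.Agent.Helper6.CV.M_HkF
import Pool.Agent.Helper7.CV.M_A1
import Pool.Agent.Helper7.CV.M_PlU
import Pool.Agent.Helper7.CV.M_Prd
import Pool.Agent.Helper9.CV.M_Rmap
import Pool.Agent.Helper10.CV.M_A1b
import Pool.Agent.Helper10.CV.M_N1
import Pool.Agent.Helper10.CV.M_Sub
import Pool.Agent.Helper14.CV.M_Bb
import Pool.Agent.Helper14.CV.M_Nrm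
import Pool.Agent.Helper15.CV.M_O1
import Pool.Agent.Helper16.CV.M_Hk3
import Pool.Agent.Helper16.CV.M_N3
import Pool.Agent.Helper19.CV.M_Final
import Pool.Agent.Helper19.CV.M_Unb
import Pool.Agent.Helper21.CV.M_A8
import Pool.Agent.Helper21.CV.M_KerO
import Pool.Agent.Helper22.CV.M_CoreOf
import Pool.Agent.Helper24.CV.M_Lifp
import Pool.Agent.Helper26.CV.M_A4
import Pool.Agent.Helper26.CV.M_Grp
import Pool.Agent.Helper28.CV.M_Lif
import Pool.Agent.Helper36.CV.M_Ex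
import Pool.Agent.Helper36.CV.M_N4
import Pool.Agent.Helper38.CV.M_A6a
import Pool.Agent.Helper38.CV.M_Far
import Pool.Agent.Helper38.CV.M_Led
import Pool.Agent.Helper38.CV.M_PlA
import Pool.Agent.Helper45.CV.M_Low0
import Pool.Agent.Helper47.CV.M_HkW
import Pool.Agent.Helper47.CV.M_Ld5
import Pool.Agent.Helper55.CV.M_A2
import Pool.Agent.Helper55.CV.M_Fex
import Pool.Agent.Helper57.CV.M_Ld3
import Pool.Agent.Helper58.CV.M_Cnt
import Pool.Agent.Helper61.CV.M_DimE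
import Pool.Agent.Helper69.CV.M_Tri
import Pool.Agent.Helper71.CV.M_A2c
import Pool.Agent.Helper71.CV.M_B3a
import Pool.Agent.Helper71.CV.M_DimO
import Pool.Agent.Helper71.CV.M_Ls
import Pool.Agent.Helper71.CV.M_Rel
import Pool.Agent.Helper72.CV.M_A3
import Pool.Agent.Helper72.CV.M_LowA
import Pool.Agent.Helper75.CV.M_Ev
import Pool.Agent.Helper75.CV.M_Hk5
import Pool.Agent.Helper76.CV.M_UBof
import Pool.Agent.Helper78.CV.M_HkB
import Pool.Agent.Helper78.CV.M_Trc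
import Pool.Agent.Helper79.CV.M_A6b
import Pool.Agent.Helper80.CV.M_E1
import Pool.Agent.Helper81.CV.M_Sur
import Pool.Agent.Helper82.CV.M_Bal
import Pool.Agent.Helper86.CV.M_P345
import Pool.Agent.Helper86.CV.M_Uni
import Pool.Agent.Helper87.CV.M_P12
import Pool.Agent.Helper90.CV.M_DimF
import Pool.Agent.Helper92.CV.M_Itr
import Pool.Agent.Helper94.CV.M_A5
import Pool.Agent.Helper96.CV.M_A6
import Pool.Agent.Helper96.CV.M_LBof
import Pool.Agent.Helper97.CV.M_HkS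
import Pool.Agent.Helper98.CV.M_Edg
import Pool.Agent.Helper99.CV.M_Hk
import Pool.Agent.Helper99.CV.M_N2
import Pool.Agent.Helper2.W3.M_CoreOf
import Pool.Agent.Helper6.W3.M_Nf
import Pool.Agent.Helper7.W3.M_Hk
import Pool.Agent.Helper7.W3.M_Ld
import Pool.Agent.Helper7.W3.M_PlU
import Pool.Agent.Helper9.W3.M_Com
import Pool.Agent.Helper9.W3.M_Lvl
import Pool.Agent.Helper10.W3.M_P2
import Pool.Agent.Helper10.W3.M_Tre
import Pool.Agent.Helper10.W3.M_Trq
import Pool.Agent.Helper16.W3.M_HkW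
import Pool.Agent.Helper16.W3.M_SubA
import Pool.Agent.Helper22.W3.M_Ev
import Pool.Agent.Helper22.W3.M_Tri
import Pool.Agent.Helper24.W3.M_Exp
import Pool.Agent.Helper24.W3.M_UBof
import Pool.Agent.Helper25.W3.M_KerO
import Pool.Agent.Helper25.W3.M_SubB
import Pool.Agent.Helper28.W3.M_E1
import Pool.Agent.Helper29.W3.M_HkT
import Pool.Agent.Helper29.W3.M_Low0
import Pool.Agent.Helper32.W3.M_Uni
import Pool.Agent.Helper34.W3.M_DimE
import Pool.Agent.Helper34.W3.M_Unb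
import Pool.Agent.Helper36.W3.M_Edg
import Pool.Agent.Helper36.W3.M_Hk2
import Pool.Agent.Helper36.W3.M_N3
import Pool.Agent.Helper37.W3.M_Lw1
import Pool.Agent.Helper37.W3.M_Rmap
import Pool.Agent.Helper43.W3.M_Hk7_0
import Pool.Agent.Helper45.W3.M_N4
import Pool.Agent.Helper47.W3.M_Hk7_1
import Pool.Agent.Helper47.W3.M_Hk7_2
import Pool.Agent.Helper47.W3.M_Nrm
import Pool.Agent.Helper53.W3.M_HkS
import Pool.Agent.Helper60.W3.M_LBof
import Pool.Agent.Helper61.W3.M_P5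
import Pool.Agent.Helper62.W3.M_Led
import Pool.Agent.Helper63.W3.M_Rel
import Pool.Agent.Helper66.W3.M_Lif
import Pool.Agent.Helper67.W3.M_N2
import Pool.Agent.Helper67.W3.M_O1
import Pool.Agent.Helper69.W3.M_DimO
import Pool.Agent.Helper69.W3.M_HkF
import Pool.Agent.Helper71.W3.M_DimF
import Pool.Agent.Helper71.W3.M_Final
import Pool.Agent.Helper72.W3.M_B3a
import Pool.Agent.Helper72.W3.M_Cnt
import Pool.Agent.Helper76.W3.M_Itr
import Pool.Agent.Helper78.W3.M_Cert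
import Pool.Agent.Helper78.W3.M_Ex
import Pool.Agent.Helper78.W3.M_Lifp
import Pool.Agent.Helper78.W3.M_Trm
import Pool.Agent.Helper78.W5.M_Fin
import Pool.Agent.Helper83.W3.M_HkB
import Pool.Agent.Helper86.W3.M_Bal
import Pool.Agent.Helper86.W3.M_P4
import Pool.Agent.Helper86.W3.M_Prd
import Pool.Agent.Helper86.W3.M_Sur
import Pool.Agent.Helper90.W3.M_B3b
import Pool.Agent.Helper94.W3.M_A3T
import Pool.Agent.Helper98.W3.M_PlA
import Pool.Agent.Helper99.W3.M_Bb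
import Pool.Agent.Helper9.S7.M_Fin
import Pool.Agent.Helper93.TL.Fin
import Pool.Agent.Helper4.TL.LB
import Pool.Agent.Helper14.TL7.LB
import Pool.Agent.Helper76.TL.Ub7
import Pool.Agent.Helper93.TH3.Val
import Pool.Agent.Helper4.TH.Core
import Pool.Agent.Helper14.TH7.Core
import Pool.Agent.Helper4.TK.Core
import Pool.Agent.Helper14.TK7.Core
import Pool.Agent.Helper4.T7.Val
import Pool.Agent.Helper93.T53.Val
import Pool.Agent.Helper4.P11.Val
import Pool.Agent.Helper4.P13.Val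

/-!
# Central values of the newforms of weight 2 and level `2^n`, `3^n`, `5^n`, `7^n`, `11^n`, `13^n`, `4·5^n`, `4·7^n`, or `q p^n` with `f | W_q = f` (seven pairs `(q, p)`)
-/

set_option autoImplicit false

open CongruenceSubgroup

namespace Pool.Agent.Results.MP_1d384c_nt.CentralValuesPrimePowers

open Pool.Agent.Helper14.CV Pool.Agent.Helper14.W3 Pool.Agent.Helper78.W3
open Pool.Agent.Helper28.TH (ALPlus)

/-- `f` is a newform of weight `2`, level `N` and trivial character: it is a cusp form on `Γ₀(N)`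
with first coefficient `1`, an eigenform of all Hecke operators `T_l` (`l` a prime not dividing
`N`) and `U_q` (`q` a prime dividing `N`), and its eigenvalues at the primes not dividing `N` do
not come from a lower level: for every prime `q` and every `M` with `N = q M`, no nonzero cusp
form on `Γ₀(M)` has the same eigenvalues at all primes `l` not dividing `N`. -/
structure IsNewform {N : ℕ} (f : CuspForm (G0 N) 2) : Prop where
  normalised : fc f 1 = 1
  hecke : ∀ l : ℕ, l.Prime → ¬ l ∣ N → HeckeEig f l (fc f l)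
  hecke_bad : ∀ q : ℕ, q.Prime → q ∣ N → ∀ m : ℕ, fc f (q * m) = fc f q * fc f m
  new : ∀ q M : ℕ, q.Prime → N = q * M → ∀ g : CuspForm (G0 M) 2,
    (∀ l : ℕ, l.Prime → ¬ l ∣ N → HeckeEig g l (fc f l)) → g = 0

/-! ### Levels `2^n` -/

private theorem analytic2 : StA1 ∧ StA4 ∧ StA5 ∧ StA6 ∧ StA8 ∧ StN4 ∧ StP1 ∧ StP2 ∧ StP3 ∧ StP4 ∧
    StP5 := by
  have a1 := Pool.Agent.Helper7.CV.hA1
  have a1b := Pool.Agent.Helper10.CV.hA1b a1
  have a2 := Pool.Agent.Helper55.CV.hA2 a1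
  have a2c := Pool.Agent.Helper71.CV.hA2c a1
  have a3 := Pool.Agent.Helper72.CV.hA3 a1
  have a3W := Pool.Agent.Helper72.CV.hA3W a1
  have a3T := Pool.Agent.Helper72.CV.hA3T a1 a1b
  have a4 := Pool.Agent.Helper26.CV.hA4 a1 a1b a3
  have a5 := Pool.Agent.Helper94.CV.hA5 a1 a1b
  have p1 := Pool.Agent.Helper87.CV.hP1
  have a6 := Pool.Agent.Helper96.CV.hA6 a1 a1b a3 Pool.Agent.Helper38.CV.hA6a
    (Pool.Agent.Helper79.CV.hA6b a1) p1
  have a8 := Pool.Agent.Helper21.CV.hA8 a1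
  have n1 := Pool.Agent.Helper10.CV.hN1
  have n3 := Pool.Agent.Helper16.CV.hN3 a1 a2 a2c a3 n1
  have n4 := Pool.Agent.Helper36.CV.hN4 a8 Pool.Agent.Helper99.CV.hN2 n3
  exact ⟨a1, a4, a5, a6, a8, n4, p1, Pool.Agent.Helper87.CV.hP2 a3 p1,
    Pool.Agent.Helper86.CV.hP3 a2, Pool.Agent.Helper86.CV.hP4 a3W p1,
    Pool.Agent.Helper86.CV.hP5 a3T p1⟩

private theorem core2 : StCore := by
  have hNrm := Pool.Agent.Helper14.CV.hNrm
  have hBb := Pool.Agent.Helper14.CV.hBb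
  have n1 := Pool.Agent.Helper10.CV.hN1
  have hk := Pool.Agent.Helper99.CV.hHk n1
  have hkS := Pool.Agent.Helper97.CV.hHkS hk
  have hkW := Pool.Agent.Helper47.CV.hHkW hk
  have hkT := Pool.Agent.Helper1.CV.hHkT hk
  have far := Pool.Agent.Helper38.CV.hFar
  have com := Pool.Agent.Helper2.CV.hCom
  have lvl := Pool.Agent.Helper2.CV.hLvl hNrm
  have hev := Pool.Agent.Helper75.CV.hEv hkS hkW hkT hNrm
  have b3a := Pool.Agent.Helper71.CV.hB3a hNrm com lvl hev
  have b3b := Pool.Agent.Helper6.CV.hB3b far hNrm com hev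
  -- upper bound
  have plA := Pool.Agent.Helper38.CV.hPlA
  have plU := Pool.Agent.Helper7.CV.hPlU
  have edg := Pool.Agent.Helper98.CV.hEdg plA plU
  have e1 := Pool.Agent.Helper80.CV.hE1 far plA edg
  have trc := Pool.Agent.Helper78.CV.hTrc
  have dimE := Pool.Agent.Helper61.CV.hDimE trc
  have o1 := Pool.Agent.Helper15.CV.hO1 far plA edg
  have kerO := Pool.Agent.Helper21.CV.hKerO Pool.Agent.Helper9.CV.hRmap
    (Pool.Agent.Helper71.CV.hDimO trc) (Pool.Agent.Helper90.CV.hDimF trc)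
  have ub := Pool.Agent.Helper76.CV.hUBof Pool.Agent.Helper82.CV.hBal e1 o1 dimE kerO
  -- lower bound
  have rel := Pool.Agent.Helper71.CV.hRel plA edg
  have ex := Pool.Agent.Helper36.CV.hEx far Pool.Agent.Helper55.CV.hFex plA
  have uni := Pool.Agent.Helper86.CV.hUni far edg
  have hkB := Pool.Agent.Helper78.CV.hHkB hk hkS
  have hkF := Pool.Agent.Helper6.CV.hHkF plA plU edg hkB
  have low0 := Pool.Agent.Helper45.CV.hLow0
  have prd := Pool.Agent.Helper7.CV.hPrd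
  have sub := Pool.Agent.Helper10.CV.hSub low0 prd
  have grp := Pool.Agent.Helper26.CV.hGrp
  have lowA := Pool.Agent.Helper72.CV.hLowA low0 grp sub
  have hk3 := Pool.Agent.Helper16.CV.hHk3 plA edg hkF
  have hk5 := Pool.Agent.Helper75.CV.hHk5 plA edg hkF
  have ld3 := Pool.Agent.Helper57.CV.hLd3 low0 grp lowA
  have ld5 := Pool.Agent.Helper47.CV.hLd5 low0 grp lowA
  have sur := Pool.Agent.Helper81.CV.hSur low0 grp lowA hBb
  have led := Pool.Agent.Helper38.CV.hLed low0 grp lowA hBb sur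
  have itr := Pool.Agent.Helper92.CV.hItr rel hkB hk3 hk5 low0 ld3 ld5
  have tri := Pool.Agent.Helper69.CV.hTri ex low0 hBb led itr
  have lif := Pool.Agent.Helper28.CV.hLif rel ex uni (Pool.Agent.Helper24.CV.hLifp grp)
  have lb := Pool.Agent.Helper96.CV.hLBof tri lif Pool.Agent.Helper19.CV.hUnb
    Pool.Agent.Helper58.CV.hCnt
  exact Pool.Agent.Helper22.CV.hCoreOf b3a b3b ub lb

private theorem final2 : StFinal := by
  obtain ⟨a1, a4, a5, a6, a8, n4, p1, p2, p3, p4, p5⟩ := analytic2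
  exact Pool.Agent.Helper19.CV.hFinal a1 a4 a5 a6 a8 n4 p1 p2 p3 p4 p5
    core2

/-! ### Levels `3^n` -/

private theorem core3 (n1 : StN1) : S3Core := by
  have nrm := Pool.Agent.Helper47.W3.hNrm
  have far := Pool.Agent.Helper38.CV.hFar
  have hk := Pool.Agent.Helper7.W3.hHk n1
  have hkS := Pool.Agent.Helper53.W3.hHkS hk
  have hkW := Pool.Agent.Helper16.W3.hHkW hk hkS
  have hkT := Pool.Agent.Helper29.W3.hHkT hk hkS
  have hev := Pool.Agent.Helper22.W3.hEv hkS hkW hkT nrm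
  have com := Pool.Agent.Helper9.W3.hCom
  have lvl := Pool.Agent.Helper9.W3.hLvl nrm
  have b3a := Pool.Agent.Helper72.W3.hB3a nrm com lvl hev
  have b3b := Pool.Agent.Helper90.W3.hB3b far nrm hev
  -- upper bound
  have plA := Pool.Agent.Helper98.W3.hPlA
  have plU := Pool.Agent.Helper7.W3.hPlU
  have edg := Pool.Agent.Helper36.W3.hEdg plA plU
  have e1 := Pool.Agent.Helper28.W3.hE1 edg plA far
  have o1 := Pool.Agent.Helper67.W3.hO1 edg plA far
  have trq := Pool.Agent.Helper10.W3.hTrq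
  have dimE := Pool.Agent.Helper34.W3.hDimE trq
  have kerO := Pool.Agent.Helper25.W3.hKerO Pool.Agent.Helper37.W3.hRmap
    (Pool.Agent.Helper69.W3.hDimO trq) (Pool.Agent.Helper71.W3.hDimF trq)
  have ub := Pool.Agent.Helper24.W3.hUBof Pool.Agent.Helper86.W3.hBal e1 o1 dimE kerO
  -- lower bound
  have trm := Pool.Agent.Helper78.W3.hTrm
  have tre := Pool.Agent.Helper10.W3.hTre plA edg
  have rel := Pool.Agent.Helper63.W3.hRel tre
  have ex := Pool.Agent.Helper78.W3.ExM.hEx trm plA Pool.Agent.Helper55.CV.hFex far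
  have uni := Pool.Agent.Helper32.W3.hUni tre edg far
  have hkB := Pool.Agent.Helper83.W3.hHkB hk
  have hkF := Pool.Agent.Helper69.W3.hHkF hkB plA edg
  have hk2 := Pool.Agent.Helper36.W3.hHk2 hkF tre trm
  have hk7 : ∀ i, S3Hk7 i := by
    intro i
    fin_cases i
    · exact Pool.Agent.Helper43.W3.hHk7_0 hkF tre trm
    · exact Pool.Agent.Helper47.W3.hHk7_1 hkF tre trm
    · exact Pool.Agent.Helper47.W3.R2.hHk7_2 hkF tre trm
  have low0 := Pool.Agent.Helper29.W3.hLow0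
  have prd := Pool.Agent.Helper86.W3.hPrd low0
  have subA := Pool.Agent.Helper16.W3.hSubA low0 prd
  have subB := Pool.Agent.Helper25.W3.hSubB low0 prd
  have nf := Pool.Agent.Helper6.W3.hNf low0 subA subB
  have exp := Pool.Agent.Helper24.W3.hExp low0 nf
  have lw1 := Pool.Agent.Helper37.W3.hLw1 low0 nf exp
  have ld := Pool.Agent.Helper7.W3.hLd trm low0 nf exp lw1 Pool.Agent.Helper78.W3.hCert
  have bb := Pool.Agent.Helper99.W3.hBb low0
  have sur := Pool.Agent.Helper86.W3.hSur low0 lw1 bb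
  have led := Pool.Agent.Helper62.W3.hLed low0 lw1 bb sur
  have itr := Pool.Agent.Helper76.W3.hItr rel hkB hk2 hk7 trm low0 lw1 ld
  have tri := Pool.Agent.Helper22.W3.hTri low0 bb led ex itr
  have lif := Pool.Agent.Helper66.W3.hLif rel (Pool.Agent.Helper78.W3.LifpM.hLifp trm) ex uni
  have lb := Pool.Agent.Helper60.W3.hLBof tri lif Pool.Agent.Helper34.W3.hUnb
    Pool.Agent.Helper72.W3.hCnt
  exact Pool.Agent.Helper2.W3.hCoreOf b3a b3b ub lb

private theorem final3 : S3Final := by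
  have a1 := Pool.Agent.Helper7.CV.hA1
  have a1b := Pool.Agent.Helper10.CV.hA1b a1
  have a2 := Pool.Agent.Helper55.CV.hA2 a1
  have a2c := Pool.Agent.Helper71.CV.hA2c a1
  have a3 := Pool.Agent.Helper72.CV.hA3 a1
  have a3W := Pool.Agent.Helper72.CV.hA3W a1
  have a3T := Pool.Agent.Helper94.W3.hA3T a1 a1b
  have a4 := Pool.Agent.Helper26.CV.hA4 a1 a1b a3
  have a5 := Pool.Agent.Helper94.CV.hA5 a1 a1b
  have p1 := Pool.Agent.Helper87.CV.hP1
  have a6 := Pool.Agent.Helper96.CV.hA6 a1 a1b a3 Pool.Agent.Helper38.CV.hA6a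
    (Pool.Agent.Helper79.CV.hA6b a1) p1
  have a8 := Pool.Agent.Helper21.CV.hA8 a1
  have n1 := Pool.Agent.Helper10.CV.hN1
  have n3 := Pool.Agent.Helper36.W3.hN3 a1 a2 a2c a3 n1
  have n4 := Pool.Agent.Helper45.W3.hN4 a8 Pool.Agent.Helper67.W3.hN2 n3
  exact Pool.Agent.Helper71.W3.hFinal a1 a4 a5 a6 a8 n4 p1 (Pool.Agent.Helper10.W3.hP2 a3 p1)
    (Pool.Agent.Helper86.CV.hP3 a2) (Pool.Agent.Helper86.W3.hP4 a3W p1)
    (Pool.Agent.Helper61.W3.hP5 a3T p1) (core3 n1)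

/-! ### Levels `5^n` and `7^n` -/

private theorem heckeK {N : ℕ} (f : CuspForm (G0 N) 2) (l : ℕ) (t : ℂ) :
    Pool.Agent.Helper14.WK.HeckeEigK f l t ↔ HeckeEig f l t := by
  have h : (l : ℂ) ^ ((2 : ℤ) - 1) = (l : ℂ) := by norm_num
  unfold Pool.Agent.Helper14.WK.HeckeEigK HeckeEig
  rw [h]
  exact Iff.rfl

private theorem isNewN {N : ℕ} (f : CuspForm (G0 N) 2) (hf : IsNewform f) :
    Pool.Agent.Helper28.TL.IsNewN f :=
  ⟨hf.normalised, fun l hl h => (heckeK f l _).2 (hf.hecke l hl h), hf.hecke_bad,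
    fun q M hq hM g hg => hf.new q M hq hM g fun l hl h => (heckeK g l _).1 (hg l hl h)⟩

private theorem primePow (p n : ℕ) (hp : p.Prime) (hn : 1 ≤ n) (f : CuspForm (G0 (p ^ n)) 2)
    (hf : IsNewform f) : Pool.Agent.Helper14.WK.IsNewformK p n f :=
  (Pool.Agent.Helper28.TL.IsNewN.iff_primePow p n hp hn f).1 (isNewN f hf)

private theorem dat (p n : ℕ) (f : CuspForm (G0 (p ^ n)) 2)
    (hf : Pool.Agent.Helper14.WK.IsNewformK p n f) :
    fc f 1 = 1 ∧ (∀ l : ℕ, l.Prime → l ≠ p → HeckeEig f l (fc f l)) ∧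
    (∀ m : ℕ, fc f (p * m) = fc f p * fc f m) ∧
    ∀ g : CuspForm (G0 (p ^ (n - 1))) 2,
      (∀ l : ℕ, l.Prime → l ≠ p → HeckeEig g l (fc f l)) → g = 0 :=
  ⟨hf.normalised, fun l hl h => (heckeK f l _).1 (hf.hecke l hl h), hf.hecke_p,
    fun g hg => hf.new g fun l hl h => (heckeK g l _).2 (hg l hl h)⟩

/-- Let `f` be a newform of weight `2`, level `N` and trivial character with root number `+1`.
Suppose that `N` is `2^n` with `n ≥ 5`, or `3^n` or `5^n` with `n ≥ 3`, or `7^n` or `13^n` with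
`n ≥ 2`, or `11^n` with `n ≥ 1`, or `4·5^n` or `4·7^n` with `n ≥ 0`, or that `N = q p^n`, `n ≥ 0`, with `(q, p)` one of
`(2, 3), (2, 5), (2, 7), (3, 5), (3, 7), (5, 3), (7, 5)` and `f | W_q = f`. Then the central value `L(1/2, f)` is not zero
(`Lan f` is the entire continuation of the `L`-series of `f` in the analytic normalisation). -/
theorem result (N : ℕ) [NeZero N] (f : CuspForm (G0 N) 2) (hf : IsNewform f) (hε : RootOne f)
    (hN : ∃ n : ℕ, (5 ≤ n ∧ N = 2 ^ n) ∨ (3 ≤ n ∧ (N = 3 ^ n ∨ N = 5 ^ n)) ∨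
      (2 ≤ n ∧ (N = 7 ^ n ∨ N = 13 ^ n)) ∨ (1 ≤ n ∧ N = 11 ^ n) ∨ N = 4 * 5 ^ n ∨ N = 4 * 7 ^ n ∨
      (∃ q p : ℕ, (q, p) ∈ ({(2, 3), (2, 5), (2, 7), (3, 5), (3, 7), (5, 3), (7, 5)} : Finset (ℕ × ℕ)) ∧
        N = q * p ^ n ∧ ALPlus q (p ^ n) f)) :
    Differentiable ℂ (Lan f) ∧
    (∀ s : ℂ, 3 / 2 < s.re →
      HasSum (fun m : ℕ => fc f m / (m : ℂ) ^ (1 / 2 : ℂ) / (m : ℂ) ^ s) (Lan f s)) ∧
    Lan f (1 / 2) ≠ 0 := by
  have ls := Pool.Agent.Helper71.CV.hLs N inferInstance f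
  refine ⟨ls.1, ls.2, ?_⟩
  obtain ⟨n, ⟨hn, rfl⟩ | ⟨hn, rfl | rfl⟩ | ⟨hn, rfl | rfl⟩ | ⟨hn, rfl⟩ | rfl | rfl |
    ⟨q, p, hp, rfl, hal⟩⟩ := hN
  · obtain ⟨h1, h2, h3, h4⟩ := dat 2 n f (primePow 2 n Nat.prime_two (by omega) f hf)
    exact final2 n f hn ⟨h1, h2, h3, h4⟩ hε
  · obtain ⟨h1, h2, h3, h4⟩ := dat 3 n f (primePow 3 n Nat.prime_three (by omega) f hf)
    exact final3 n f hn ⟨h1, h2, h3, h4⟩ hε
  · exact Pool.Agent.Helper78.W5.final5 n f hn (primePow 5 n (by norm_num) (by omega) f hf) hε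
  · exact Pool.Agent.Helper9.S7.final7 n f hn (primePow 7 n (by norm_num) (by omega) f hf) hε
  · exact Pool.Agent.Helper4.P13.val13N n f (isNewN f hf) hε
  · exact Pool.Agent.Helper4.P11.val11N n f (isNewN f hf) hε
  · exact Pool.Agent.Helper93.TL.lval5 Pool.Agent.Helper4.TL.lb5 n f (isNewN f hf) hε
  · exact Pool.Agent.Helper93.TL.lval7 Pool.Agent.Helper76.TL7.ube7 Pool.Agent.Helper14.TL7.lb7 n f
      (isNewN f hf) hε
  · simp only [Finset.mem_insert, Finset.mem_singleton, Prod.mk.injEq] at hp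
    rcases hp with ⟨rfl, rfl⟩ | ⟨rfl, rfl⟩ | ⟨rfl, rfl⟩ | ⟨rfl, rfl⟩ | ⟨rfl, rfl⟩ | ⟨rfl, rfl⟩ |
      ⟨rfl, rfl⟩
    · exact Pool.Agent.Helper93.TH3.valH3 n f (isNewN f hf) hal hε
    · exact Pool.Agent.Helper4.TH.valH5 n f (isNewN f hf) hal hε
    · exact Pool.Agent.Helper14.TH7.valH7 n f (isNewN f hf) hal hε
    · exact Pool.Agent.Helper4.TK.valK5 n f (isNewN f hf) hal hε
    · exact Pool.Agent.Helper14.TK7.valK7 n f (isNewN f hf) hal hε
    · exact Pool.Agent.Helper93.T53.valQ3 n f (isNewN f hf) hal hε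
    · exact Pool.Agent.Helper4.T7.valQ5 n f (isNewN f hf) hal hε

end Pool.Agent.Results.MP_1d384c_nt.CentralValuesPrimePowers
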