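import Pool.Agent.Helper78.TU4.CVal
import Pool.Agent.Helper78.TY.Asm

/-!
# Central values of the twists of the newforms of level `2^n` and `3^n` by Dirichlet characters
-/

set_option autoImplicit false

open UpperHalfPlane CongruenceSubgroup
open scoped MatrixGroups

namespace Pool.Agent.Results.MP_1d384c_nt.CharacterTwistsPrimePowers

open Pool.Agent.Helper14.CV Pool.Agent.Helper76.TX

/-- `f` is a newform of weight `2`, level `p^n` (`p` prime) and trivial character: it is a cusp
form on `Γ₀(p^n)` with first coefficient `1`, an eigenform of all Hecke operators `T_l`, `l ≠ p`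
prime, and of `U_p`, and its eigenvalues at the primes `l ≠ p` do not come from the lower level
`p^(n-1)` (no nonzero cusp form on `Γ₀(p^(n-1))` has the same eigenvalues at all primes
`l ≠ p`). -/
structure IsNewformP (p n : ℕ) (f : CuspForm (G0 (p ^ n)) 2) : Prop where
  normalised : fc f 1 = 1
  hecke : ∀ l : ℕ, l.Prime → l ≠ p → HeckeEig f l (fc f l)
  hecke_p : ∀ m : ℕ, fc f (p * m) = fc f p * fc f m
  new : ∀ g : CuspForm (G0 (p ^ (n - 1))) 2,
    (∀ l : ℕ, l.Prime → l ≠ p → HeckeEig g l (fc f l)) → g = 0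

/-- Let `p = 2`, `n ≥ 5` or `p = 3`, `n ≥ 3`, let `w = 1` or `w = -1`, and let `χ_1, ..., χ_r` be
primitive Dirichlet characters (of any order) of conductors `D_1, ..., D_r` prime to `p` (`D_i = 1`
is allowed), with `χ_i(p) = 1` or `-1` and, for every `i`, `χ_i(-1) χ_i(p)^n = w` or (`p = 2` and
`χ_i^2 ≠ 1`): for `p = 2` this excludes only the case that `χ_i` is quadratic or trivial and
`χ_i(-1) χ_i(p)^n = -w`, where `L(1/2, f × χ_i) = 0` by the functional equation.
Then `L(s, f × χ_i)` has an entire continuation for every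
cusp form `f` of weight `2` and level `p^n`, and all newforms `f` of weight `2`, level `p^n`, trivial
character and root number `w` satisfy `L(1/2, f × χ_i) ≠ 0` for all `i` at once, with at most
`136 * p^(n/2) * ∑_i D_i (log_2 D_i + 2)` exceptions (the sum over the `i` with `D_i > 1`). -/
theorem result (p n : ℕ) [NeZero p] (hp : (p = 2 ∧ 5 ≤ n) ∨ (p = 3 ∧ 3 ≤ n)) (w : ℤ)
    (hw1 : w = 1 ∨ w = -1) (r : ℕ) (D : Fin r → ℕ) (χ : (i : Fin r) → DirichletCharacter ℂ (D i))
    (hD : ∀ i, ¬ p ∣ D i) (hχ : ∀ i, (χ i).IsPrimitive)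
    (hc : ∀ i, χ i p = 1 ∨ χ i p = -1)
    (hw : ∀ i, χ i (-1) * χ i p ^ n = (w : ℂ) ∨ (p = 2 ∧ χ i ^ 2 ≠ 1)) :
    (∀ (i : Fin r) (f : CuspForm (G0 (p ^ n)) 2), ∃ L : ℂ → ℂ, IsLTw (χ i) f L) ∧
    {f : CuspForm (G0 (p ^ n)) 2 | IsNewformP p n f ∧ RootNum w f ∧
        ∃ (i : Fin r) (L : ℂ → ℂ), IsLTw (χ i) f L ∧ L (1 / 2) = 0}.encard ≤
      ((136 * (∑ i ∈ Finset.univ.filter fun i => 1 < D i, D i * (Nat.log 2 (D i) + 2)) *
        p ^ (n / 2) : ℕ) : ℕ∞) := by
  have h0 : ∀ i, D i ≠ 0 := fun i h => hD i (by rw [h]; exact dvd_zero p)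
  refine ⟨fun i f => ?_, ?_⟩
  · exact Pool.Agent.Helper78.TU.anl.2.2 (p ^ n) inferInstance f (D i) ⟨h0 i⟩ (χ i) (hχ i)
  · set S : Fin r → Set (CuspForm (G0 (p ^ n)) 2) := fun i =>
      {f | IsNewformP p n f ∧ RootNum w f ∧ ∃ L : ℂ → ℂ, IsLTw (χ i) f L ∧ L (1 / 2) = 0} with hS
    have hone : ∀ i, D i = 1 → S i = ∅ := by
      intro i hi
      have hsub : Subsingleton (ZMod (D i)) := by rw [hi]; infer_instance
      have hχ1 : χ i ^ 2 = 1 := by
        ext u
        rw [Subsingleton.elim (u : ZMod (D i)) 1, map_one, map_one]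
      have hw1 : w = 1 := by
        have h1 := (hw i).resolve_right fun h => h.2 hχ1
        rw [Subsingleton.elim (-1 : ZMod (D i)) 1, Subsingleton.elim ((p : ℕ) : ZMod (D i)) 1,
          map_one, one_pow, mul_one] at h1
        exact_mod_cast h1.symm
      refine Set.eq_empty_of_forall_notMem ?_
      rintro f ⟨hf, hR, L, hL, hL0⟩
      rw [hw1] at hR
      rcases hp with ⟨rfl, hn⟩ | ⟨rfl, hn⟩
      · exact Pool.Agent.Helper78.TU4.CVal.triv2 n hn f
          ⟨hf.normalised, hf.hecke, hf.hecke_p, hf.new⟩ hR (D i) hi (χ i) L hL hL0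
      · exact Pool.Agent.Helper78.TU4.CVal.triv3 n hn f
          ⟨hf.normalised, hf.hecke, hf.hecke_p, hf.new⟩ hR (D i) hi (χ i) L hL hL0
    have hbig : ∀ i, 1 < D i →
        (S i).encard ≤ ((136 * (D i * (Nat.log 2 (D i) + 2)) * p ^ (n / 2) : ℕ) : ℕ∞) := by
      intro i hi
      rcases hp with ⟨rfl, hn⟩ | ⟨rfl, hn⟩
      · have key := Pool.Agent.Helper78.TY.oneY n hn w hw1 (D i) (χ i) (by
            rw [← Nat.not_even_iff_odd, even_iff_two_dvd]
            exact hD i) hi (hχ i) (by exact_mod_cast hc i) (by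
            rcases hw i with h | h
            · exact Or.inl (by exact_mod_cast h)
            · exact Or.inr h.2)
        refine le_trans (Set.encard_le_encard ?_) key
        rintro f ⟨hf, hR, hL⟩
        exact ⟨⟨hf.normalised, hf.hecke, hf.hecke_p, hf.new⟩, hR, hL⟩
      · have key := Pool.Agent.Helper78.TV.all3V n hn w 1 (fun _ => D i) (fun _ => χ i) fun _ => by
          refine ⟨?_, hi, hχ i, ?_, ?_⟩
          · intro h
            exact hD i (Nat.dvd_of_mod_eq_zero h)
          · exact_mod_cast hc i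
          · rcases hw i with h | h
            · exact_mod_cast h
            · exact absurd h.1 (by norm_num)
        rw [Fin.sum_univ_one] at key
        refine le_trans (Set.encard_le_encard ?_) key
        rintro f ⟨hf, hR, hL⟩
        exact ⟨⟨hf.normalised, hf.hecke, hf.hecke_p, hf.new⟩, hR, 0, hL⟩
    have h1 : {f : CuspForm (G0 (p ^ n)) 2 | IsNewformP p n f ∧ RootNum w f ∧
        ∃ (i : Fin r) (L : ℂ → ℂ), IsLTw (χ i) f L ∧ L (1 / 2) = 0} ⊆ ⋃ i, S i := by
      rintro f ⟨hf1, hf2, i, hL⟩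
      exact Set.mem_iUnion.2 ⟨i, hf1, hf2, hL⟩
    refine (Set.encard_le_encard h1).trans ?_
    refine (Set.encard_iUnion_le_of_fintype S).trans ?_
    rw [← Finset.sum_filter_add_sum_filter_not Finset.univ (fun i => 1 < D i)]
    have h2 : ∑ i ∈ Finset.univ.filter (fun i => ¬ 1 < D i), (S i).encard = 0 := by
      refine Finset.sum_eq_zero fun i hi => ?_
      have h3 := (Finset.mem_filter.1 hi).2
      have h4 := h0 i
      rw [hone i (by omega), Set.encard_empty]
    rw [h2, add_zero]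
    refine (Finset.sum_le_sum fun i hi => hbig i (Finset.mem_filter.1 hi).2).trans ?_
    rw [← Nat.cast_sum]
    refine le_of_eq ?_
    congr 1
    rw [← Finset.sum_mul, ← Finset.mul_sum]

end Pool.Agent.Results.MP_1d384c_nt.CharacterTwistsPrimePowers
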