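import Pool.Agent.Helper78.TC.Full
import Pool.Agent.Helper78.TC.M_Good
import Pool.Agent.Helper78.T3.M_Gf
import Pool.Agent.Helper78.T3.M_AsmF
import Pool.Agent.Helper28.T3.Asm
import Pool.Agent.Helper63.T3.M_QFD
import Pool.Agent.Helper56.T3E.M_TDS

/-!
# Twists of the newforms of weight 2 and level a power of three by Dirichlet characters of any order
-/

set_option autoImplicit false

open UpperHalfPlane CongruenceSubgroup
open scoped MatrixGroups NumberField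

namespace Pool.Agent.Results.MP_1d384c_nt.CharacterTwistsThreePowers

open Pool.Agent.Helper14.CV

/-- `f` is a newform of weight `2`, level `3^n` and trivial character: it is a cusp form on `Γ₀(3^n)`
with first coefficient `1`, an eigenform of all Hecke operators `T_p`, `p ≠ 3` prime, and of `U_3`,
and its eigenvalues at the primes `p ≠ 3` do not come from the lower level `3^(n-1)` (no nonzero cusp
form on `Γ₀(3^(n-1))` has the same eigenvalues at all primes `p ≠ 3`). -/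
structure IsNew (n : ℕ) (f : CuspForm (G0 (3 ^ n)) 2) : Prop where
  normalised : fc f 1 = 1
  hecke : ∀ p : ℕ, p.Prime → p ≠ 3 → HeckeEig f p (fc f p)
  hecke_three : ∀ m : ℕ, fc f (3 * m) = fc f 3 * fc f m
  new : ∀ g : CuspForm (G0 (3 ^ (n - 1))) 2,
    (∀ p : ℕ, p.Prime → p ≠ 3 → HeckeEig g p (fc f p)) → g = 0

/-- The root number of `f` is `w`: the completed function satisfies `Λ(s,f) = w Λ(1-s,f)` in the
strip `-1/2 < Re s < 3/2`, where neither Gamma factor has a pole. -/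
def HasRoot {N : ℕ} [NeZero N] (w : ℤ) (f : CuspForm (G0 N) 2) : Prop :=
  ∀ s : ℂ, -1 / 2 < s.re → s.re < 3 / 2 → Lam f s = (w : ℂ) * Lam f (1 - s)

/-- `L` is the `L`-function of the twist of `f` by the Dirichlet character `χ` in the analytic
normalisation (centre `1/2`): it is entire and `L(s) = ∑ χ(m) a_m m^(-1/2) m^(-s)` for `Re s > 3/2`. -/
def IsTwistL {N D : ℕ} (χ : DirichletCharacter ℂ D) (f : CuspForm (G0 N) 2) (L : ℂ → ℂ) : Prop :=
  Differentiable ℂ L ∧ ∀ s : ℂ, 3 / 2 < s.re →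
    HasSum (fun m : ℕ => χ (m : ZMod D) * fc f m / (m : ℂ) ^ (1 / 2 : ℂ) / (m : ℂ) ^ s) (L s)

/-- `V(χ) = ∑_{a<D} χ(a) a` (this is `D B_{1,χ}`) if `e = -1`, and `V(χ) = ∑_{a<D/3} χ(a)` otherwise. -/
noncomputable def V (e : ℤ) {D : ℕ} (χ : DirichletCharacter ℂ D) : ℂ :=
  if e = -1 then ∑ a ∈ Finset.range D, χ (a : ZMod D) * (a : ℂ)
  else ∑ a ∈ (Finset.range D).filter (fun a => 3 * a < D), χ (a : ZMod D)

/-- `χ` is good of sign `e`: it is a primitive Dirichlet character modulo `D > 1`, `3 ∤ D`, of any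
order, with `χ(-1) = e`, `χ(3) = -1`, and the algebraic integer `V(χ) V(χ⁻¹)` lies outside some
maximal ideal `P` over `3` of the ring of all algebraic integers. -/
def Good (e : ℤ) {D : ℕ} (χ : DirichletCharacter ℂ D) : Prop :=
  χ.IsPrimitive ∧ 1 < D ∧ ¬ 3 ∣ D ∧ χ (-1) = (e : ℂ) ∧ χ 3 = -1 ∧
    ∃ P : Ideal (integralClosure ℤ ℂ), P.IsMaximal ∧ 3 ∈ P ∧
      ∃ t : integralClosure ℤ ℂ, (t : ℂ) = V e χ * V e χ⁻¹ ∧ t ∉ P

/-- `D` is squarefree and

* `e = -1`, `D = 7` modulo `12` and the class number of the quadratic field of discriminant `-D` is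
  not divisible by `3`, or
* `e = 1`, `1 < D`, `D = 5` modulo `12` and the class number of the quadratic field of discriminant
  `-3D` is not divisible by `3`. -/
def QGood (e : ℤ) (D : ℕ) : Prop :=
  Squarefree D ∧ ∃ (K : Type) (_ : Field K) (_ : NumberField K),
    Module.finrank ℚ K = 2 ∧ ¬ 3 ∣ NumberField.classNumber K ∧
      ((e = -1 ∧ D % 12 = 7 ∧ NumberField.discr K = -(D : ℤ)) ∨
        (e = 1 ∧ 1 < D ∧ D % 12 = 5 ∧ NumberField.discr K = -(3 * D : ℤ)))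

open Pool.Agent.Helper28.T3 in
private theorem finrank_of {D : ℕ} {K : Type} [Field K] [NumberField K] (q : QF D K) :
    Module.finrank ℚ K = 2 := by
  rw [← NumberField.RingOfIntegers.rank, Module.finrank_eq_card_basis q.b, Fintype.card_fin]

open Pool.Agent.Helper28.T3 in
private theorem good_neg {D : ℕ} (hsq : Squarefree D) (hmod : D % 24 = 19)
    (h3 : ¬ (3 : ℤ) ∣ TD D) : QGood (-1) D := by
  refine ⟨hsq, ?_⟩
  obtain ⟨K, iF, iN, ⟨q⟩⟩ := Pool.Agent.Helper47.T3.hQFE D hsq (by omega)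
  refine ⟨K, iF, iN, finrank_of q, ?_, Or.inl ⟨rfl, by omega, Pool.Agent.Helper36.T3.hDSC D K q⟩⟩
  intro h
  have hc := cnf D K q hsq (by omega) (by omega)
  apply h3
  rw [← dvd_abs, ← hc]
  exact Dvd.dvd.mul_left (by exact_mod_cast h) _

open Pool.Agent.Helper28.T3 in
private theorem good_pos {D : ℕ} (h1 : 1 < D) (hsq : Squarefree D) (hmod : D % 24 = 17)
    (h9 : ¬ (9 : ℤ) ∣ TD (3 * D)) : QGood 1 D := by
  refine ⟨hsq, ?_⟩
  have hcop : Nat.Coprime 3 D := by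
    rw [Nat.Prime.coprime_iff_not_dvd Nat.prime_three]
    omega
  have hsq3 : Squarefree (3 * D) := (Nat.squarefree_mul hcop).2 ⟨Nat.prime_three.squarefree, hsq⟩
  obtain ⟨K, iF, iN, ⟨q⟩⟩ := Pool.Agent.Helper47.T3.hQFE (3 * D) hsq3 (by omega)
  refine ⟨K, iF, iN, finrank_of q, ?_, Or.inr ⟨rfl, h1, by omega, ?_⟩⟩
  · intro h
    have hc := cnf (3 * D) K q hsq3 (by omega) (by omega)
    apply h9
    rw [← dvd_abs, ← hc]
    have h' : (3 : ℤ) ∣ ((NumberField.classNumber K : ℕ) : ℤ) := by exact_mod_cast h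
    obtain ⟨k, hk⟩ := h'
    exact ⟨D * k, by rw [hk]; push_cast; ring⟩
  · rw [Pool.Agent.Helper36.T3.hDSC (3 * D) K q]
    push_cast
    ring

private theorem card_le {N : ℕ} {f : Set ℕ} (G : Finset ℕ) (hf : ∀ D ∈ f, D ≤ N)
    (hG : ∀ D ∈ G, D ∈ f) : (G.card : ℝ) ≤ (f.ncard : ℝ) := by
  have hfin : f.Finite := (Set.finite_Iic N).subset fun D hD => hf D hD
  have h := Set.ncard_le_ncard (s := (G : Set ℕ)) (t := f) (fun D hD => hG D hD) hfin
  rw [Set.ncard_coe_finset] at h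
  exact_mod_cast h

open Pool.Agent.Helper28.T3 in
private theorem count : ∃ N0 : ℕ, ∀ e : ℤ, (e = 1 ∨ e = -1) → ∀ N : ℕ, N0 ≤ N →
    (N : ℝ) / 100 ≤ ({D : ℕ | D ≤ N ∧ QGood e D}.ncard : ℝ) := by
  classical
  obtain ⟨N1, h1⟩ := fin
  obtain ⟨N2, h2⟩ := finq 17 (Or.inr rfl)
  refine ⟨max N1 N2, ?_⟩
  intro e he N hN
  rcases he with rfl | rfl
  · obtain ⟨G, hG⟩ : ∃ G : Finset ℕ, G = (Finset.range (N + 1)).filter
      fun D => 1 < D ∧ Squarefree D ∧ D % 24 = 17 ∧ ¬ (9 : ℤ) ∣ TD (3 * D) := ⟨_, rfl⟩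
    have hGm : ∀ D, D ∈ G ↔ (1 < D ∧ D ≤ N ∧ Squarefree D ∧ D % 24 = 17 ∧
        ¬ (9 : ℤ) ∣ TD (3 * D)) := by
      intro D
      rw [hG, Finset.mem_filter, Finset.mem_range, Nat.lt_succ_iff]
      tauto
    refine (h2 N (le_trans (le_max_right _ _) hN) G hGm).trans (card_le G (fun D hD => hD.1) ?_)
    intro D hD
    obtain ⟨a0, a1, a2, a3, a4⟩ := (hGm D).1 hD
    exact ⟨a1, good_pos a0 a2 a3 a4⟩
  · obtain ⟨G, hG⟩ : ∃ G : Finset ℕ, G = (Finset.range (N + 1)).filter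
      fun D => Squarefree D ∧ D % 24 = 19 ∧ ¬ (3 : ℤ) ∣ TD D := ⟨_, rfl⟩
    have hGm : ∀ D, D ∈ G ↔ (D ≤ N ∧ Squarefree D ∧ D % 24 = 19 ∧ ¬ (3 : ℤ) ∣ TD D) := by
      intro D
      rw [hG, Finset.mem_filter, Finset.mem_range, Nat.lt_succ_iff]
    refine (h1 N (le_trans (le_max_left _ _) hN) G hGm).trans (card_le G (fun D hD => hD.1) ?_)
    intro D hD
    obtain ⟨a1, a2, a3, a4⟩ := (hGm D).1 hD
    exact ⟨a1, good_neg a2 a3 a4⟩

/-! ### The two conditions on quadratic characters -/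

open Pool.Agent.Helper28.T3 Pool.Agent.Helper14.T3 in
private theorem okt_of {D : ℕ} (hsq : Squarefree D) (hmod : D % 12 = 7) (K : Type) [Field K]
    [NumberField K] (hK : Module.finrank ℚ K = 2) (hh : ¬ 3 ∣ NumberField.classNumber K)
    (hdisc : NumberField.discr K = -(D : ℤ)) : Okt D := by
  refine ⟨hsq, hmod, ?_⟩
  obtain ⟨q⟩ := Pool.Agent.Helper63.T3.hQFD D K (by omega) hK hdisc
  have h := cnf D K q hsq (by omega) (by omega)
  intro h3
  have h4 : (3 : ℤ) ∣ TD D := h3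
  have h5 : (3 : ℤ) ∣ (D : ℤ) * NumberField.classNumber K := by
    rw [h]
    exact (dvd_abs _ _).2 h4
  rcases Int.prime_three.dvd_or_dvd h5 with h6 | h6
  · have h7 : 3 ∣ D := by exact_mod_cast h6
    omega
  · exact hh (by exact_mod_cast h6)

open Pool.Agent.Helper28.T3 Pool.Agent.Helper28.T3E in
private theorem oke_of {D : ℕ} (h1 : 1 < D) (hsq : Squarefree D) (hmod : D % 12 = 5) (K : Type)
    [Field K] [NumberField K] (hK : Module.finrank ℚ K = 2)
    (hh : ¬ 3 ∣ NumberField.classNumber K)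
    (hdisc : NumberField.discr K = -(3 * D : ℤ)) : OkE D := by
  refine ⟨h1, hsq, hmod, ?_⟩
  have hdisc' : NumberField.discr K = -((3 * D : ℕ) : ℤ) := by
    rw [hdisc]
    push_cast
    ring
  have hcop : Nat.Coprime 3 D := by
    rw [Nat.Prime.coprime_iff_not_dvd Nat.prime_three]
    omega
  have hsq3 : Squarefree (3 * D) := (Nat.squarefree_mul hcop).2 ⟨Nat.prime_three.squarefree, hsq⟩
  obtain ⟨q⟩ := Pool.Agent.Helper63.T3.hQFD (3 * D) K (by omega) hK hdisc'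
  have h := cnf (3 * D) K q hsq3 (by omega) (by omega)
  rw [Pool.Agent.Helper56.T3E.hTDS D h1 hsq hmod] at h
  intro h3
  obtain ⟨k, hk⟩ := h3
  rw [hk] at h
  have hD0 : (0 : ℤ) < D := by exact_mod_cast (by omega : 0 < D)
  have e : (-6 * (D : ℤ) * (3 * k)) = (3 * D) * (-(6 * k)) := by ring
  rw [e, abs_mul, abs_of_pos (by positivity : (0 : ℤ) < 3 * D)] at h
  push_cast at h
  have h4 : ((NumberField.classNumber K : ℕ) : ℤ) = |-(6 * k)| :=
    mul_left_cancel₀ (by positivity) h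
  apply hh
  have h5 : (3 : ℤ) ∣ ((NumberField.classNumber K : ℕ) : ℤ) := by
    rw [h4, dvd_abs, dvd_neg]
    exact ⟨2 * k, by ring⟩
  exact_mod_cast h5

private theorem quad (e : ℤ) (D : ℕ) (h : QGood e D) : ∃ χ : DirichletCharacter ℂ D,
    (∀ a : ℤ, χ (a : ZMod D) = ((jacobiSym a D : ℤ) : ℂ)) ∧ Good e χ := by
  obtain ⟨hsq, K, iF, iN, hK, hh, hc⟩ := h
  rcases hc with ⟨rfl, h2, h3⟩ | ⟨rfl, h2, h3, h4⟩
  · obtain ⟨χ, hχ, hp, hm, ht, P, hP, hP3, t, hv, hn⟩ := Pool.Agent.Helper78.TC.jac_odd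
      Pool.Agent.Helper77.TX.hJac (okt_of hsq h2 K hK hh h3)
    refine ⟨χ, hχ, hp, by omega, by omega, by rw [hm]; norm_num, ht, P, hP, hP3, t, ?_, hn⟩
    rw [hv]
    unfold V Pool.Agent.Helper78.TC.Tc
    rw [if_pos rfl, if_pos rfl]
  · obtain ⟨χ, hχ, hp, hm, ht, P, hP, hP3, t, hv, hn⟩ := Pool.Agent.Helper78.TC.jac_even
      Pool.Agent.Helper77.TX.hJac (oke_of h2 hsq h3 K hK hh h4)
    refine ⟨χ, hχ, hp, by omega, by omega, by rw [hm]; norm_num, ht, P, hP, hP3, t, ?_, hn⟩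
    rw [hv]
    unfold V Pool.Agent.Helper78.TC.Sc
    rw [if_neg (by norm_num), if_neg (by norm_num)]

private theorem main (e : ℤ) (he : e = 1 ∨ e = -1) (D : ℕ) [NeZero D] (χ : DirichletCharacter ℂ D)
    (hG : Good e χ) (n : ℕ) (hn : 3 ≤ n) (f : CuspForm (G0 (3 ^ n)) 2) (hf : IsNew n f)
    (hw : HasRoot (e * (-1) ^ n) f) (L : ℂ → ℂ) (hL : IsTwistL χ f L) : L (1 / 2) ≠ 0 := by
  obtain ⟨hχ, hD, h3, hm, hχ3, P, hP, h3P, t, ht, htP⟩ := hG
  have hf' : Pool.Agent.Helper14.W3.IsNewform3 n f :=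
    ⟨hf.normalised, hf.hecke, hf.hecke_three, hf.new⟩
  have h3' : D % 3 ≠ 0 := fun h => h3 (Nat.dvd_of_mod_eq_zero h)
  rcases he with rfl | rfl
  · have hne : ¬ ((1 : ℤ) = -1) := by norm_num
    refine (Pool.Agent.Helper78.TC.tcE D inferInstance χ hχ hD h3' (by rw [hm]; norm_num) hχ3
      ⟨P, hP, h3P, t, ?_, htP⟩ n f hn hf' ?_).2 L hL
    · rw [ht]
      unfold V Pool.Agent.Helper78.TC.Sc
      rw [if_neg hne, if_neg hne]
    · rw [one_mul] at hw
      exact hw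
  · refine (Pool.Agent.Helper78.TC.tcO D inferInstance χ hχ hD h3' (by rw [hm]; norm_num) hχ3
      ⟨P, hP, h3P, t, ?_, htP⟩ n f hn hf' ?_).2 L hL
    · rw [ht]
      unfold V Pool.Agent.Helper78.TC.Tc
      rw [if_pos rfl, if_pos rfl]
    · rw [neg_one_mul] at hw
      exact hw

/-- (i) Every newform `f` of weight `2`, level `3^n`, `n ≥ 3`, and trivial character has a root
number `w = 1` or `w = -1`; its twists by the primitive Dirichlet characters `χ` have an entire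
`L`-function, and `L(1/2, f × χ) ≠ 0` for every good `χ` (of any order) of the sign `w (-1)^n`.
(ii) The character `(·/D)` is good of sign `e` for every `D` with `QGood e D`. (iii) For both signs `e`
and all `N ≥ N0` at least `N/100` of the numbers `D ≤ N` satisfy `QGood e D`. -/
theorem result :
    (∀ (n : ℕ) (f : CuspForm (G0 (3 ^ n)) 2), 3 ≤ n → IsNew n f →
      ∃ w : ℤ, (w = 1 ∨ w = -1) ∧ HasRoot w f ∧
        ∀ (D : ℕ) [NeZero D] (χ : DirichletCharacter ℂ D),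
          (χ.IsPrimitive → ∃ L : ℂ → ℂ, IsTwistL χ f L) ∧
          (Good (w * (-1) ^ n) χ → ∀ L : ℂ → ℂ, IsTwistL χ f L → L (1 / 2) ≠ 0)) ∧
    (∀ (e : ℤ) (D : ℕ), QGood e D → ∃ χ : DirichletCharacter ℂ D,
      (∀ a : ℤ, χ (a : ZMod D) = ((jacobiSym a D : ℤ) : ℂ)) ∧ Good e χ) ∧
    ∃ N0 : ℕ, ∀ e : ℤ, (e = 1 ∨ e = -1) → ∀ N : ℕ, N0 ≤ N →
      (N : ℝ) / 100 ≤ ({D : ℕ | D ≤ N ∧ QGood e D}.ncard : ℝ) := by
  refine ⟨?_, quad, count⟩
  obtain ⟨-, hRN, -, hLTE⟩ := Pool.Agent.Helper78.T3.asmF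
  intro n f hn hf
  have hpow : ((-1 : ℤ)) ^ n * (-1) ^ n = 1 := by
    rw [← mul_pow]
    simp
  have key : ∀ w : ℤ, (w = 1 ∨ w = -1) → HasRoot w f → ∃ w : ℤ, (w = 1 ∨ w = -1) ∧ HasRoot w f ∧
        ∀ (D : ℕ) [NeZero D] (χ : DirichletCharacter ℂ D),
          (χ.IsPrimitive → ∃ L : ℂ → ℂ, IsTwistL χ f L) ∧
          (Good (w * (-1) ^ n) χ → ∀ L : ℂ → ℂ, IsTwistL χ f L → L (1 / 2) ≠ 0) := by
    intro w hw hR
    refine ⟨w, hw, hR, fun D _ χ => ⟨fun hχ => hLTE (3 ^ n) inferInstance f D inferInstance χ hχ,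
      fun hG L hL => main (w * (-1) ^ n) ?_ D χ hG n hn f hf ?_ L hL⟩⟩
    · rcases hw with rfl | rfl <;> rcases neg_one_pow_eq_or ℤ n with h | h <;> rw [h] <;> norm_num
    · have e1 : w * (-1) ^ n * (-1) ^ n = w := by
        rw [mul_assoc, hpow, mul_one]
      rw [e1]
      exact hR
  rcases hRN n f (by omega) ⟨hf.normalised, hf.hecke, hf.hecke_three, hf.new⟩ with h | h
  · exact key 1 (Or.inl rfl) h
  · exact key (-1) (Or.inr rfl) h

end Pool.Agent.Results.MP_1d384c_nt.CharacterTwistsThreePowers
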